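import Pool.Agent.H45R3.AC.Main

/-!
# Linear average-case word problems of matrix groups over algebraic fields

The theorem for matrix groups over `ℚ` is transferred along injective homomorphisms to groups of
units of finite-dimensional `ℚ`-algebras, and to finitely generated groups of matrices over any
field which is algebraic over its prime field.
-/

set_option autoImplicit false

namespace Pool.Agent.Y136.WordAlg

open Pool.Agent.H45R3.AC

universe u v

lemma wordVal_map {G : Type u} {H : Type v} [Group G] [Group H] (φ : G →* H) {r : ℕ}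
    (f : Fin r → G) (w : List (Fin r × Bool)) :
    wordVal (fun i => φ (f i)) w = φ (wordVal f w) := by
  unfold wordVal
  rw [map_list_prod, List.map_map]
  congr 2
  funext a
  cases h : a.2 <;> simp [h]

/-- An injective homomorphism does not change the word problem. -/
lemma linear_iff {G : Type u} {H : Type v} [Group G] [Group H] (φ : G →* H)
    (hφ : Function.Injective φ) {r : ℕ} (f : Fin r → G) :
    LinearAverageWP (fun i => φ (f i)) ↔ LinearAverageWP f := by
  have key : ∀ w : List (Fin r × Bool), wordVal (fun i => φ (f i)) w = 1 ↔ wordVal f w = 1 := by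
    intro w
    rw [wordVal_map, map_eq_one_iff φ hφ]
  constructor
  · rintro ⟨k, M, enc, T, C, h1, h2, h3, h4⟩
    refine ⟨k, M, enc, T, C, h1, h2, fun w => ?_, h4⟩
    obtain ⟨b, hb, hb'⟩ := h3 w
    exact ⟨b, hb, hb'.trans (key w)⟩
  · rintro ⟨k, M, enc, T, C, h1, h2, h3, h4⟩
    refine ⟨k, M, enc, T, C, h1, h2, fun w => ?_, h4⟩
    obtain ⟨b, hb, hb'⟩ := h3 w
    exact ⟨b, hb, hb'.trans (key w).symm⟩

/-- Units of a finite-dimensional `ℚ`-algebra. -/
theorem units_finite (S : Type u) [Ring S] [Algebra ℚ S] [Module.Finite ℚ S] {r : ℕ}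
    (f : Fin r → Sˣ) : LinearAverageWP f := by
  have hinj : Function.Injective (Units.map
      (Algebra.leftMulMatrix (Module.finBasis ℚ S)).toMonoidHom) :=
    Units.map_injective (Algebra.leftMulMatrix_injective (Module.finBasis ℚ S))
  rw [← linear_iff _ hinj]
  exact main _

/-- Finite groups. -/
theorem finite_group (G : Type u) [Group G] [Finite G] {r : ℕ} (f : Fin r → G) :
    LinearAverageWP f := by
  have : Fintype G := Fintype.ofFinite G
  have hfin : Module.Finite ℚ (MonoidAlgebra ℚ G) := inferInstance
  have hinj : Function.Injective (MonoidAlgebra.of ℚ G).toHomUnits := by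
    intro a b hab
    have := congrArg (Units.val) hab
    exact MonoidAlgebra.of_injective this
  rw [← linear_iff _ hinj]
  exact units_finite (MonoidAlgebra ℚ G) _

section Descent

variable {k : Type u} {K : Type v} [Field k] [Field K] [Algebra k K] [Algebra.IsAlgebraic k K]

/-- Finitely many invertible matrices over an algebraic extension have entries in a finite
extension, together with their inverses. -/
lemma exists_descent {m r : ℕ} (f : Fin r → GL (Fin m) K) :
    ∃ L : IntermediateField k K, FiniteDimensional k L ∧ ∃ f' : Fin r → GL (Fin m) L,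
      ∀ i, Units.map ((algebraMap L K).mapMatrix (m := Fin m)).toMonoidHom (f' i) = f i := by
  classical
  let S : Set K := (Set.range fun x : Fin r × Fin m × Fin m =>
      (f x.1 : Matrix (Fin m) (Fin m) K) x.2.1 x.2.2) ∪
    (Set.range fun x : Fin r × Fin m × Fin m =>
      (((f x.1)⁻¹ : GL (Fin m) K) : Matrix (Fin m) (Fin m) K) x.2.1 x.2.2)
  have hSfin : S.Finite := (Set.finite_range _).union (Set.finite_range _)
  have hfd : FiniteDimensional k (IntermediateField.adjoin k S) := by
    have := hSfin.to_subtype
    exact IntermediateField.finiteDimensional_adjoin fun x _ =>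
      (Algebra.IsAlgebraic.isAlgebraic x).isIntegral
  have h1 : ∀ i a b, (f i : Matrix (Fin m) (Fin m) K) a b ∈ IntermediateField.adjoin k S :=
    fun i a b => IntermediateField.subset_adjoin k S (Or.inl ⟨(i, a, b), rfl⟩)
  have h2 : ∀ i a b, (((f i)⁻¹ : GL (Fin m) K) : Matrix (Fin m) (Fin m) K) a b ∈
      IntermediateField.adjoin k S :=
    fun i a b => IntermediateField.subset_adjoin k S (Or.inr ⟨(i, a, b), rfl⟩)
  set L := IntermediateField.adjoin k S with hL
  have hinj : Function.Injective ((algebraMap L K).mapMatrix (m := Fin m)) := by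
    intro A B hAB
    ext a b
    have := congrFun (congrFun hAB a) b
    exact this
  let F : Fin r → Matrix (Fin m) (Fin m) L := fun i => Matrix.of fun a b =>
    ⟨(f i : Matrix (Fin m) (Fin m) K) a b, h1 i a b⟩
  let F' : Fin r → Matrix (Fin m) (Fin m) L := fun i => Matrix.of fun a b =>
    ⟨(((f i)⁻¹ : GL (Fin m) K) : Matrix (Fin m) (Fin m) K) a b, h2 i a b⟩
  have hF : ∀ i, (algebraMap L K).mapMatrix (F i) = (f i : Matrix (Fin m) (Fin m) K) := fun i => by
    ext a b; rfl
  have hF' : ∀ i, (algebraMap L K).mapMatrix (F' i) = (((f i)⁻¹ : GL (Fin m) K) : Matrix (Fin m) (Fin m) K) :=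
    fun i => by ext a b; rfl
  refine ⟨L, hfd, fun i => ⟨F i, F' i, hinj ?_, hinj ?_⟩, fun i => ?_⟩
  · rw [map_mul, hF, hF', map_one, Units.mul_inv]
  · rw [map_mul, hF, hF', map_one, Units.inv_mul]
  · apply Units.ext
    exact hF i

omit [Algebra.IsAlgebraic k K] in
lemma descent_injective (L : IntermediateField k K) (m : ℕ) : Function.Injective
    (Units.map ((algebraMap L K).mapMatrix (m := Fin m)).toMonoidHom) := by
  apply Units.map_injective
  intro A B hAB
  ext a b
  have := congrFun (congrFun hAB a) b
  exact this

end Descent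

/-- Matrices over an algebraic extension of `ℚ`. -/
theorem algebraic_zero (K : Type u) [Field K] [Algebra ℚ K] [Algebra.IsAlgebraic ℚ K] {m r : ℕ}
    (f : Fin r → GL (Fin m) K) : LinearAverageWP f := by
  obtain ⟨L, hL, f', hf'⟩ := exists_descent (k := ℚ) f
  have hL' : @Module.Finite ℚ L _ _ (DivisionRing.toRatAlgebra : Algebra ℚ L).toModule := by
    have e : (DivisionRing.toRatAlgebra : Algebra ℚ L) = L.algebra' := Subsingleton.elim _ _
    rw [e]
    exact hL
  have h1 : LinearAverageWP f' := units_finite (Matrix (Fin m) (Fin m) L) f'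
  have h2 := (linear_iff _ (descent_injective L m) f').2 h1
  have h3 : (fun i => Units.map ((algebraMap L K).mapMatrix (m := Fin m)).toMonoidHom (f' i)) = f :=
    funext hf'
  rw [h3] at h2
  exact h2

/-- Matrices over an algebraic extension of a finite field. -/
theorem algebraic_p (p : ℕ) [Fact p.Prime] (K : Type u) [Field K] [Algebra (ZMod p) K]
    [Algebra.IsAlgebraic (ZMod p) K] {m r : ℕ} (f : Fin r → GL (Fin m) K) :
    LinearAverageWP f := by
  obtain ⟨L, hL, f', hf'⟩ := exists_descent (k := ZMod p) f
  have hfin : Finite L := Module.finite_of_finite (ZMod p)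
  have h1 : LinearAverageWP f' := finite_group (GL (Fin m) L) f'
  have h2 := (linear_iff _ (descent_injective L m) f').2 h1
  have h3 : (fun i => Units.map ((algebraMap L K).mapMatrix (m := Fin m)).toMonoidHom (f' i)) = f :=
    funext hf'
  rw [h3] at h2
  exact h2

/-- Passage to subgroups. -/
theorem of_subgroup {H : Type u} [Group H] (h : ∀ (r : ℕ) (f : Fin r → H), LinearAverageWP f)
    (G : Subgroup H) {r : ℕ} (f : Fin r → G) : LinearAverageWP f :=
  (linear_iff G.subtype G.subtype_injective f).1 (h r _)

end Pool.Agent.Y136.WordAlg
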